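import Pool.Agent.V1180.Lap

set_option autoImplicit false

/-!
The first Dirichlet eigenfunction of the equilateral triangle, normalised to have maximum `1`,
is not half-log-concave.
-/

open Set Filter Topology InnerProductSpace Laplacian Real Pool.Agent.V1180
open scoped ContDiff

namespace Pool.Agent.Results.MP_c418e9_an.TriangleFails

/-- the Euclidean plane -/
abbrev E2 := EuclideanSpace ℝ (Fin 2)

/-- `ψ` is a Dirichlet eigenfunction of `-Δ` in `Ω` with eigenvalue `lam`: it is continuous on the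
closure of `Ω`, of class `C^2` in `Ω`, vanishes on the boundary, satisfies `-Δψ = lam ψ` in `Ω`
and is not identically zero in `Ω`. -/
structure IsDirichletEigenfunction (Ω : Set E2) (lam : ℝ) (ψ : E2 → ℝ) : Prop where
  continuousOn : ContinuousOn ψ (closure Ω)
  contDiffOn : ContDiffOn ℝ 2 ψ Ω
  boundary : ∀ x ∈ frontier Ω, ψ x = 0
  equation : ∀ x ∈ Ω, -(Δ ψ x) = lam * ψ x
  nontrivial : ∃ x ∈ Ω, ψ x ≠ 0

/-- comparison with a positive eigenfunction of a larger domain -/
theorem le_of_positive {Ω : Set E2} (hΩ : IsOpen Ω) (hb : Bornology.IsBounded Ω) {lam mu : ℝ}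
    {φ ψ : E2 → ℝ} (hφ : ContDiff ℝ 2 φ) (hφ0 : ∀ x ∈ closure Ω, 0 < φ x)
    (hφe : ∀ x, Δ φ x = -(lam * φ x)) (hψ : IsDirichletEigenfunction Ω mu ψ) : lam ≤ mu := by
  by_contra hcon
  push Not at hcon
  -- wlog positive somewhere
  have key : ∀ ψ : E2 → ℝ, IsDirichletEigenfunction Ω mu ψ → (∃ x ∈ Ω, 0 < ψ x) → False := by
    intro ψ hψ ⟨x1, hx1, hx1p⟩
    have hcomp : IsCompact (closure Ω) := hb.isCompact_closure
    have hvc : ContinuousOn (fun x => ψ x / φ x) (closure Ω) :=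
      hψ.continuousOn.div hφ.continuous.continuousOn fun x hx => (hφ0 x hx).ne'
    obtain ⟨x0, hx0, hmax⟩ := hcomp.exists_isMaxOn ⟨x1, subset_closure hx1⟩ hvc
    have hM : 0 < ψ x0 / φ x0 :=
      lt_of_lt_of_le (div_pos hx1p (hφ0 x1 (subset_closure hx1))) (hmax (subset_closure hx1))
    set M := ψ x0 / φ x0 with hMdef
    have hx0Ω : x0 ∈ Ω := by
      by_contra h
      have : x0 ∈ frontier Ω := by
        rw [frontier, hΩ.interior_eq]
        exact ⟨hx0, h⟩
      have h2 := hψ.boundary x0 this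
      rw [hMdef, h2] at hM
      simp at hM
    have hψx : ContDiffAt ℝ 2 ψ x0 := hψ.contDiffOn.contDiffAt (hΩ.mem_nhds hx0Ω)
    have hφx : ContDiffAt ℝ 2 φ x0 := hφ.contDiffAt
    have hloc : IsLocalMax (fun x => ψ x - M * φ x) x0 := by
      filter_upwards [hΩ.mem_nhds hx0Ω] with x hx
      have h1 : ψ x / φ x ≤ M := hmax (subset_closure hx)
      have h2 := hφ0 x (subset_closure hx)
      have h3 := hφ0 x0 hx0
      rw [div_le_iff₀ h2] at h1
      have h4 : ψ x0 = M * φ x0 := by rw [hMdef]; field_simp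
      linarith
    have hlap := lap_nonpos_of_isLocalMax (hψx.sub (contDiffAt_const.mul hφx)) hloc
    have e1 : (fun x => ψ x - M * φ x) = ψ - M • φ := by
      ext x; simp
    rw [e1] at hlap
    have hMφ : ContDiffAt ℝ 2 (M • φ) x0 := contDiffAt_const.smul hφx
    rw [hψx.laplacian_sub hMφ,
      laplacian_smul M hφx, hφe] at hlap
    have h5 := hψ.equation x0 hx0Ω
    have h3 := hφ0 x0 hx0
    have h4 : ψ x0 = M * φ x0 := by rw [hMdef]; field_simp
    rw [smul_eq_mul] at hlap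
    rw [h4] at h5
    have : 0 < (lam - mu) * (M * φ x0) := by
      apply mul_pos (by linarith) (mul_pos hM h3)
    nlinarith
  obtain ⟨x, hx, hne⟩ := hψ.nontrivial
  rcases lt_or_gt_of_ne hne with h | h
  · apply key (-ψ)
    · refine ⟨hψ.continuousOn.neg, hψ.contDiffOn.neg, ?_, ?_, ?_⟩
      · intro y hy
        simp [hψ.boundary y hy]
      · intro y hy
        rw [laplacian_neg]
        have := hψ.equation y hy
        simp only [Pi.neg_apply]
        linarith
      · exact ⟨x, hx, by simpa using hne⟩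
    · exact ⟨x, hx, by simpa using h⟩
  · exact key ψ hψ ⟨x, hx, h⟩

/-- inner normals of the sides -/
noncomputable def a : Fin 3 → E2 := ![!₂[2, 0], !₂[-1, √3], !₂[-1, -√3]]

/-- barycentric coordinates -/
noncomputable def bc (i : Fin 3) (x : E2) : ℝ := inner ℝ (a i) x + 1 / 3

/-- the open equilateral triangle -/
def T : Set E2 := {x | ∀ i, 0 < bc i x}

theorem a_norm (i : Fin 3) : ‖a i‖ ^ 2 = 4 := by
  rw [EuclideanSpace.norm_sq_eq]
  fin_cases i <;> simp [a, Fin.sum_univ_two] <;> norm_num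

theorem bc_sum (x : E2) : bc 0 x + bc 1 x + bc 2 x = 1 := by
  simp [bc, a, PiLp.inner_apply, Fin.sum_univ_two]
  ring

theorem bc_continuous (i : Fin 3) : Continuous (bc i) := by
  unfold bc
  fun_prop

/-- the family of eigenfunctions -/
noncomputable def Phi (c : ℝ) (x : E2) : ℝ :=
  ∑ i : Fin 3, sin (2 * π * (inner ℝ (c • a i) x + 1 / 3))

theorem Phi_contDiff (c : ℝ) : ContDiff ℝ 2 (Phi c) := by
  unfold Phi
  apply ContDiff.sum
  intro i _
  apply ContDiff.sin
  apply contDiff_const.mul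
  exact (contDiff_const.inner ℝ contDiff_id).add contDiff_const

theorem Phi_lap (c : ℝ) (x : E2) : Δ (Phi c) x = -(16 * π ^ 2 * c ^ 2 * Phi c x) := by
  have hg : ContDiff ℝ 2 (fun t : ℝ => sin (2 * π * t)) := by fun_prop
  have hdd : ∀ t, deriv (deriv (fun t : ℝ => sin (2 * π * t))) t
      = -(4 * π ^ 2) * sin (2 * π * t) := by
    intro t
    have h1 : deriv (fun t : ℝ => sin (2 * π * t)) = fun t => 2 * π * cos (2 * π * t) := by
      ext s
      have := ((hasDerivAt_id s).const_mul (2 * π)).sin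
      simp only [id] at this
      rw [this.deriv]; ring
    rw [h1]
    have := (((hasDerivAt_id t).const_mul (2 * π)).cos).const_mul (2 * π)
    simp only [id] at this
    rw [this.deriv]; ring
  have h1 : ∀ i : Fin 3, Δ (fun y => (fun t : ℝ => sin (2 * π * t)) (inner ℝ (c • a i) y + 1 / 3)) x
      = -(16 * π ^ 2 * c ^ 2) * sin (2 * π * (inner ℝ (c • a i) x + 1 / 3)) := by
    intro i
    rw [lap_comp_inner _ _ hg, hdd, norm_smul, mul_pow, a_norm]
    simp
    ring
  have hc : ∀ i : Fin 3, ContDiffAt ℝ 2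
      (fun y : E2 => (fun t : ℝ => sin (2 * π * t)) (inner ℝ (c • a i) y + 1 / 3)) x := by
    intro i
    apply ContDiff.contDiffAt
    exact hg.comp ((contDiff_const.inner ℝ contDiff_id).add contDiff_const)
  have e : Phi c = (fun y : E2 => (fun t : ℝ => sin (2 * π * t)) (inner ℝ (c • a 0) y + 1 / 3)) +
      ((fun y : E2 => (fun t : ℝ => sin (2 * π * t)) (inner ℝ (c • a 1) y + 1 / 3)) +
      (fun y : E2 => (fun t : ℝ => sin (2 * π * t)) (inner ℝ (c • a 2) y + 1 / 3))) := by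
    ext y
    simp only [Phi, Fin.sum_univ_three, Pi.add_apply]
    ring
  have hs : ContDiffAt ℝ 2 ((fun y : E2 => (fun t : ℝ => sin (2 * π * t))
      (inner ℝ (c • a 1) y + 1 / 3)) +
      (fun y : E2 => (fun t : ℝ => sin (2 * π * t)) (inner ℝ (c • a 2) y + 1 / 3))) x :=
    (hc 1).add (hc 2)
  rw [e, (hc 0).laplacian_add hs, (hc 1).laplacian_add (hc 2), h1, h1, h1]
  simp only [Pi.add_apply]
  ring

theorem sum_sin {A B C : ℝ} (h : A + B + C = π) :
    sin (2 * A) + sin (2 * B) + sin (2 * C) = 4 * (sin A * sin B * sin C) := by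
  have hC : C = π - (A + B) := by linarith
  have h1 : sin C = sin (A + B) := by rw [hC, sin_pi_sub]
  have h2 : sin (2 * C) = - sin (2 * (A + B)) := by
    rw [hC, mul_sub, ← sin_neg]
    rw [show 2 * π - 2 * (A + B) = -(2 * (A + B)) + 2 * π by ring, sin_add_two_pi]
  rw [h1, h2, sin_two_mul, sin_two_mul, sin_two_mul, sin_add, cos_add]
  have hA := sin_sq_add_cos_sq A
  have hB := sin_sq_add_cos_sq B
  have e1 : cos A ^ 2 = 1 - sin A ^ 2 := by linarith
  have e2 : cos B ^ 2 = 1 - sin B ^ 2 := by linarith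
  ring_nf
  rw [e1, e2]
  ring

theorem Phi_eq (c : ℝ) (x : E2) : Phi c x =
    4 * (sin (π * (c * bc 0 x + (1 - c) / 3)) * sin (π * (c * bc 1 x + (1 - c) / 3)) *
      sin (π * (c * bc 2 x + (1 - c) / 3))) := by
  rw [← sum_sin]
  · simp only [Phi, Fin.sum_univ_three, bc, inner_smul_left]
    simp only [conj_trivial]
    congr 1
    · congr 1
      · congr 1; ring
      · congr 1; ring
    · congr 1; ring
  · have := bc_sum x
    have h3 : bc 2 x = 1 - bc 0 x - bc 1 x := by linarith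
    rw [h3]; ring

theorem sin_prod_le {A B C : ℝ} (h : A + B + C = π) (hC : 0 ≤ sin C) : sin A * sin B * sin C ≤ 3 * √3 / 8 := by
  have h1 : sin A * sin B ≤ (1 + cos C) / 2 := by
    have h2 : cos C = - cos (A + B) := by
      rw [show C = π - (A + B) by linarith, cos_pi_sub]
    have h3 : cos (A - B) ≤ 1 := cos_le_one _
    rw [cos_sub] at h3
    rw [h2, cos_add]
    linarith
  have h4 : sin A * sin B * sin C ≤ (1 + cos C) / 2 * sin C :=
    mul_le_mul_of_nonneg_right h1 hC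
  have h5 : (1 + cos C) * sin C ≤ 3 * √3 / 4 := by
    apply le_of_sq_le_sq _ (by positivity)
    have h6 := sin_sq_add_cos_sq C
    have h7 : ((1 + cos C) * sin C) ^ 2 = (1 + cos C) ^ 3 * (1 - cos C) := by
      rw [mul_pow, show sin C ^ 2 = 1 - cos C ^ 2 by linarith]; ring
    have h8 : (3 * √3 / 4) ^ 2 = 27 / 16 := by
      rw [div_pow, mul_pow, sq_sqrt (by norm_num)]; norm_num
    rw [h7, h8]
    have h9 : 27 / 16 - (1 + cos C) ^ 3 * (1 - cos C)
      = (cos C - 1 / 2) ^ 2 * ((cos C + 3 / 2) ^ 2 + 1 / 2) := by ring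
    have : 0 ≤ (cos C - 1 / 2) ^ 2 * ((cos C + 3 / 2) ^ 2 + 1 / 2) := by positivity
    linarith
  linarith

/-- the eigenfunction, normalised to have maximum one -/
noncomputable def phi (x : E2) : ℝ := 2 / (3 * √3) * Phi 1 x

theorem phi_eq (x : E2) : phi x =
    8 / (3 * √3) * (sin (π * bc 0 x) * sin (π * bc 1 x) * sin (π * bc 2 x)) := by
  rw [phi, Phi_eq]
  simp only [one_mul, sub_self, zero_div, add_zero]
  ring

theorem bc_lt_one {x : E2} (h : ∀ i, 0 ≤ bc i x) (i : Fin 3) : bc i x ≤ 1 := by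
  have := bc_sum x
  have h0 := h 0
  have h1 := h 1
  have h2 := h 2
  fin_cases i <;> simp <;> linarith

theorem isOpen_T : IsOpen T := by
  have : T = ⋂ i, {x | 0 < bc i x} := by ext x; simp [T]
  rw [this]
  exact isOpen_iInter_of_finite fun i => isOpen_lt continuous_const (bc_continuous i)

theorem closure_T {x : E2} (hx : x ∈ closure T) (i : Fin 3) : 0 ≤ bc i x := by
  have : closure T ⊆ {x | 0 ≤ bc i x} := by
    apply closure_minimal
    · intro y hy
      exact (hy i).le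
    · exact isClosed_le continuous_const (bc_continuous i)
  exact this hx

theorem frontier_T {x : E2} (hx : x ∈ frontier T) : ∃ i, bc i x = 0 := by
  rw [frontier, isOpen_T.interior_eq] at hx
  obtain ⟨h1, h2⟩ := hx
  by_contra h
  push Not at h
  apply h2
  intro i
  exact lt_of_le_of_ne (closure_T h1 i) (h i).symm

theorem convex_T : Convex ℝ T := by
  have : T = ⋂ i, {x | -(1 / 3) < inner ℝ (a i) x} := by
    ext x
    simp only [T, bc, mem_ofPred_eq, mem_iInter]
    refine forall_congr' fun i => ?_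
    constructor <;> intro h <;> linarith
  rw [this]
  exact convex_iInter fun i => convex_halfSpace_gt (innerₗ E2 (a i)).isLinear _

theorem bounded_T : Bornology.IsBounded T := by
  refine (Metric.isBounded_closedBall (x := (0:E2)) (r := 3)).subset ?_
  intro x hx
  have h0 := bc_lt_one (fun i => (hx i).le) 0
  have h0' := hx 0
  have h1 := bc_lt_one (fun i => (hx i).le) 1
  have h1' := hx 1
  have h2 := bc_lt_one (fun i => (hx i).le) 2
  have h2' := hx 2
  simp only [bc, a, Matrix.cons_val_zero, Matrix.cons_val_one, PiLp.inner_apply,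
    Fin.sum_univ_two, Matrix.cons_val] at h0 h0' h1 h1' h2 h2'
  simp at h0 h0' h1 h1' h2 h2'
  have hs : √3 * √3 = 3 := mul_self_sqrt (by norm_num)
  have hs0 : 0 < √3 := by positivity
  rw [mem_closedBall_zero_iff]
  apply le_of_sq_le_sq _ (by norm_num)
  rw [EuclideanSpace.norm_sq_eq]
  simp only [Fin.sum_univ_two, norm_eq_abs, sq_abs]
  have hx0 : -1 ≤ x 0 ∧ x 0 ≤ 1 := by constructor <;> linarith
  have hx1 : -3 ≤ 3 * x 1 ∧ 3 * x 1 ≤ 3 := by
    have e1 : x 1 * √3 ≤ 1 := by linarith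
    have e2 : -1 ≤ x 1 * √3 := by linarith
    have e3 : 3 * x 1 = √3 * (x 1 * √3) := by
      calc 3 * x 1 = (√3 * √3) * x 1 := by rw [hs]
        _ = _ := by ring
    have e4 : √3 ≤ 3 := by nlinarith
    rw [e3]
    constructor <;> nlinarith
  nlinarith [hx0.1, hx0.2, hx1.1, hx1.2]

theorem sin_bc_pos {c t : ℝ} (hc0 : 0 ≤ c) (hc1 : c < 1) (h0 : 0 ≤ t) (h1 : t ≤ 1) :
    0 < sin (π * (c * t + (1 - c) / 3)) := by
  have hp := pi_pos
  have e0 : 0 < c * t + (1 - c) / 3 := by
    have : 0 ≤ c * t := mul_nonneg hc0 h0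
    have : 0 < (1 - c) / 3 := by linarith
    linarith
  have e1 : c * t + (1 - c) / 3 < 1 := by nlinarith
  apply sin_pos_of_pos_of_lt_pi
  · positivity
  · nlinarith

theorem Phi_pos {c : ℝ} (hc0 : 0 ≤ c) (hc1 : c < 1) {x : E2} (hx : x ∈ closure T) :
    0 < Phi c x := by
  rw [Phi_eq]
  have h := fun i => closure_T hx i
  have h' := fun i => bc_lt_one (fun i => closure_T hx i) i
  have h0 := sin_bc_pos hc0 hc1 (h 0) (h' 0)
  have h1 := sin_bc_pos hc0 hc1 (h 1) (h' 1)
  have h2 := sin_bc_pos hc0 hc1 (h 2) (h' 2)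
  positivity

theorem sin_pi_pos {t : ℝ} (h0 : 0 < t) (h1 : t < 1) : 0 < sin (π * t) := by
  have hp := pi_pos
  apply sin_pos_of_pos_of_lt_pi
  · positivity
  · nlinarith

theorem bc_lt_one' {x : E2} (h : x ∈ T) (i : Fin 3) : bc i x < 1 := by
  have := bc_sum x
  have h0 := h 0
  have h1 := h 1
  have h2 := h 2
  fin_cases i <;> simp <;> linarith

theorem phi_pos {x : E2} (hx : x ∈ T) : 0 < phi x := by
  rw [phi_eq]
  have h0 := sin_pi_pos (hx 0) (bc_lt_one' hx 0)
  have h1 := sin_pi_pos (hx 1) (bc_lt_one' hx 1)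
  have h2 := sin_pi_pos (hx 2) (bc_lt_one' hx 2)
  positivity

theorem phi_le_one {x : E2} (hx : x ∈ T) : phi x ≤ 1 := by
  rw [phi_eq]
  have h2 := sin_pi_pos (hx 2) (bc_lt_one' hx 2)
  have h3 : π * bc 0 x + π * bc 1 x + π * bc 2 x = π := by
    rw [← mul_add, ← mul_add, bc_sum, mul_one]
  have h4 := sin_prod_le h3 h2.le
  have hs : 0 < √3 := by positivity
  calc 8 / (3 * √3) * (sin (π * bc 0 x) * sin (π * bc 1 x) * sin (π * bc 2 x))
      ≤ 8 / (3 * √3) * (3 * √3 / 8) := mul_le_mul_of_nonneg_left h4 (by positivity)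
    _ = 1 := by field_simp

theorem phi_lap (x : E2) : -(Δ phi x) = 16 * π ^ 2 * phi x := by
  have e : phi = (2 / (3 * √3)) • Phi 1 := by
    ext y; simp [phi]
  rw [e, laplacian_smul _ (Phi_contDiff 1).contDiffAt, Phi_lap]
  simp only [smul_eq_mul, Pi.smul_apply]
  ring

/-- points on the axis of symmetry -/
noncomputable def pt (s : ℝ) : E2 := !₂[s, 0]

theorem bc_pt (s : ℝ) : bc 0 (pt s) = 1 / 3 + 2 * s ∧ bc 1 (pt s) = 1 / 3 - s ∧
    bc 2 (pt s) = 1 / 3 - s := by
  refine ⟨?_, ?_, ?_⟩ <;>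
  · simp [bc, a, pt, PiLp.inner_apply, Fin.sum_univ_two]
    ring

theorem pt_mem {s : ℝ} (h0 : 0 ≤ s) (h1 : s < 1 / 3) : pt s ∈ T := by
  obtain ⟨e0, e1, e2⟩ := bc_pt s
  intro i
  fin_cases i
  · simp only [Fin.zero_eta, e0]; linarith
  · simp only [Fin.mk_one, e1]; linarith
  · simp only [Fin.reduceFinMk, e2]; linarith

theorem phi_pt (s : ℝ) : phi (pt s) =
    8 / (3 * √3) * (sin (π * (1 / 3 + 2 * s)) * sin (π * (1 / 3 - s)) ^ 2) := by
  obtain ⟨e0, e1, e2⟩ := bc_pt s
  rw [phi_eq, e0, e1, e2]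
  ring

theorem phi_pt0 : phi (pt 0) = 1 := by
  rw [phi_pt]
  rw [show π * (1 / 3 + 2 * 0) = π / 3 by ring, show π * (1 / 3 - 0) = π / 3 by ring,
    sin_pi_div_three]
  have hs : √3 * √3 = 3 := mul_self_sqrt (by norm_num)
  have hs0 : 0 < √3 := by positivity
  field_simp
  nlinarith

theorem phi_pt2 : phi (pt (1 / 12)) = 4 / (3 * √3) := by
  rw [phi_pt]
  rw [show π * (1 / 3 + 2 * (1 / 12)) = π / 2 by ring, show π * (1 / 3 - 1 / 12) = π / 4 by ring,
    sin_pi_div_four, sin_pi_div_two]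
  have hs : √2 ^ 2 = 2 := sq_sqrt (by norm_num)
  rw [div_pow, hs]
  ring

theorem phi_pt1 : phi (pt (1 / 24)) = (1 + √2 + √2 * √3) / (3 * √3) := by
  rw [phi_pt]
  have h2 : √2 ^ 2 = 2 := sq_sqrt (by norm_num)
  have h3 : √3 ^ 2 = 3 := sq_sqrt (by norm_num)
  have e1 : sin (π * (1 / 3 + 2 * (1 / 24))) = (√2 * √3 + √2) / 4 := by
    rw [show π * (1 / 3 + 2 * (1 / 24)) = π / 4 + π / 6 by ring, sin_add, sin_pi_div_four,
      cos_pi_div_four, sin_pi_div_six, cos_pi_div_six]
    ring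
  have e2 : cos (2 * (π * (1 / 3 - 1 / 24))) = (√2 - √2 * √3) / 4 := by
    rw [show 2 * (π * (1 / 3 - 1 / 24)) = π / 4 + π / 3 by ring, cos_add, sin_pi_div_four,
      cos_pi_div_four, sin_pi_div_three, cos_pi_div_three]
    ring
  have e3 : sin (π * (1 / 3 - 1 / 24)) ^ 2 = (4 - √2 + √2 * √3) / 8 := by
    rw [cos_two_mul] at e2
    have := sin_sq_add_cos_sq (π * (1 / 3 - 1 / 24))
    linarith
  rw [e1, e3]
  have hs0 : 0 < √3 := by positivity
  field_simp
  ring_nf
  rw [h2, h3]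
  ring

theorem key_ineq : phi (pt (1 / 24)) ^ 4 < phi (pt (1 / 12)) := by
  rw [phi_pt1, phi_pt2]
  have h2 : √2 < 1.41422 := by
    rw [sqrt_lt' (by norm_num)]; norm_num
  have h3 : √3 < 1.73206 := by
    rw [sqrt_lt' (by norm_num)]; norm_num
  have h3' : 1.73205 < √3 := by
    rw [lt_sqrt (by norm_num)]; norm_num
  have h20 : 0 < √2 := by positivity
  have h30 : 0 < √3 := by positivity
  have h4 : 1 + √2 + √2 * √3 < 4.86374 := by nlinarith
  have h5 : (1 + √2 + √2 * √3) ^ 4 < 4.86374 ^ 4 :=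
    pow_lt_pow_left₀ h4 (by positivity) (by norm_num)
  have h33 : √3 ^ 2 = 3 := sq_sqrt (by norm_num)
  have h6 : (3 * √3) ^ 4 = 729 := by
    calc (3 * √3) ^ 4 = 81 * (√3 ^ 2) ^ 2 := by ring
      _ = 729 := by rw [h33]; norm_num
  rw [div_pow, h6, div_lt_div_iff₀ (by norm_num) (by positivity)]
  have h7 : (1 + √2 + √2 * √3) ^ 4 * (3 * √3) < 4.86374 ^ 4 * (3 * 1.73206) := by
    apply mul_lt_mul'' h5 (by linarith) (by positivity) (by positivity)
  refine h7.trans ?_
  norm_num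

/-- **Half-log-concavity of the first Dirichlet eigenfunction fails.** There are a bounded convex
domain `Ω` of the plane (an equilateral triangle) and a positive first Dirichlet eigenfunction
`φ ≤ 1` of `-Δ` in `Ω` for which `sqrt (-log φ)` is not convex on `Ω`. -/
theorem result : ∃ (Ω : Set E2) (lam : ℝ) (φ : E2 → ℝ),
    IsOpen Ω ∧ Convex ℝ Ω ∧ Ω.Nonempty ∧ Bornology.IsBounded Ω ∧
    IsLeast {mu : ℝ | ∃ ψ, IsDirichletEigenfunction Ω mu ψ} lam ∧
    IsDirichletEigenfunction Ω lam φ ∧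
    (∀ x ∈ Ω, 0 < φ x ∧ φ x ≤ 1) ∧
    ¬ ConvexOn ℝ Ω (fun x => √(-log (φ x))) := by
  have hE : IsDirichletEigenfunction T (16 * π ^ 2) phi := by
    have hc : ContDiff ℝ 2 phi := contDiff_const.mul (Phi_contDiff 1)
    refine ⟨hc.continuous.continuousOn, hc.contDiffOn, ?_, fun x _ => phi_lap x, ?_⟩
    · intro x hx
      obtain ⟨i, hi⟩ := frontier_T hx
      rw [phi_eq]
      fin_cases i <;> simp at hi <;> simp [hi]
    · exact ⟨pt 0, pt_mem le_rfl (by norm_num), by rw [phi_pt0]; norm_num⟩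
  refine ⟨T, 16 * π ^ 2, phi, isOpen_T, convex_T, ⟨pt 0, pt_mem le_rfl (by norm_num)⟩,
    bounded_T, ⟨⟨phi, hE⟩, ?_⟩, hE, fun x hx => ⟨phi_pos hx, phi_le_one hx⟩, ?_⟩
  · rintro mu ⟨ψ, hψ⟩
    have h1 : ∀ c : ℝ, 0 ≤ c → c < 1 → 16 * π ^ 2 * c ^ 2 ≤ mu := fun c hc0 hc1 =>
      le_of_positive isOpen_T bounded_T (Phi_contDiff c) (fun x hx => Phi_pos hc0 hc1 hx)
        (fun x => Phi_lap c x) hψ
    have h2 : Tendsto (fun c : ℝ => 16 * π ^ 2 * c ^ 2) (𝓝[<] 1) (𝓝 (16 * π ^ 2 * 1 ^ 2)) := by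
      apply tendsto_nhdsWithin_of_tendsto_nhds
      exact (continuous_const.mul (continuous_pow 2)).tendsto 1
    rw [one_pow, mul_one] at h2
    refine le_of_tendsto h2 ?_
    filter_upwards [Ioo_mem_nhdsLT (show (0:ℝ) < 1 by norm_num)] with c hc
    exact h1 c hc.1.le hc.2
  · intro hconv
    have h0 := pt_mem (s := 0) le_rfl (by norm_num)
    have h2 := pt_mem (s := 1 / 12) (by norm_num) (by norm_num)
    have h1 := pt_mem (s := 1 / 24) (by norm_num) (by norm_num)
    have hm := hconv.2 h0 h2 (show (0:ℝ) ≤ 1 / 2 by norm_num) (show (0:ℝ) ≤ 1 / 2 by norm_num)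
      (by norm_num)
    have e : (1 / 2 : ℝ) • pt 0 + (1 / 2 : ℝ) • pt (1 / 12) = pt (1 / 24) := by
      ext i
      fin_cases i <;> simp [pt] <;> norm_num
    rw [e] at hm
    simp only [phi_pt0, log_one, neg_zero, sqrt_zero, smul_eq_mul] at hm
    have hp1 := phi_pos h1
    have hp2 := phi_pos h2
    have hl1 : 0 ≤ -log (phi (pt (1 / 24))) := by
      have := log_nonpos hp1.le (phi_le_one h1); linarith
    have hl2 : 0 ≤ -log (phi (pt (1 / 12))) := by
      have := log_nonpos hp2.le (phi_le_one h2); linarith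
    have hsq : (-log (phi (pt (1 / 24)))) ≤ 1 / 4 * (-log (phi (pt (1 / 12)))) := by
      have h3 := mul_self_le_mul_self (sqrt_nonneg _) hm
      rw [mul_self_sqrt hl1] at h3
      have h4 := mul_self_sqrt hl2
      nlinarith
    have hlog : log (phi (pt (1 / 24)) ^ 4) < log (phi (pt (1 / 12))) :=
      log_lt_log (by positivity) key_ineq
    rw [log_pow] at hlog
    push_cast at hlog
    linarith

end Pool.Agent.Results.MP_c418e9_an.TriangleFails
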